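import Pool.Agent.helper61.Y2.Spec

set_option autoImplicit false

namespace H61.Y2

open H61.Yorioka Cardinal

theorem SQC_cof (J : Set (Set (ℕ → Bool))) :
    ∃ C : Set (Set (ℕ → Bool)), C ⊆ J ∧ (∀ A ∈ J, ∃ B ∈ C, A ⊆ B) ∧ cof J = #C := by
  have h : sInf {κ | ∃ J' : Set (Set (ℕ → Bool)), J' ⊆ J ∧ (∀ A ∈ J, ∃ B ∈ J', A ⊆ B) ∧ κ = #J'} ∈
      {κ | ∃ J' : Set (Set (ℕ → Bool)), J' ⊆ J ∧ (∀ A ∈ J, ∃ B ∈ J', A ⊆ B) ∧ κ = #J'} :=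
    csInf_mem ⟨#J, J, subset_rfl, fun A hA => ⟨A, hA, subset_rfl⟩, rfl⟩
  exact h

theorem SQC : SQC_stmt := by
  intro X Y J r k
  induction k with
  | zero =>
    intro P hJ h
    obtain ⟨y, hy⟩ := h
    refine ⟨{y}, ?_, fun x hx => ⟨y, rfl, hy x hx⟩⟩
    rw [Cardinal.mk_singleton]
    exact Cardinal.one_le_aleph0.trans hJ
  | succ k ih =>
    intro P hJ h
    obtain ⟨φ, hφ, hZ⟩ := h
    obtain ⟨C, hCJ, hC, hcard⟩ := SQC_cof J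
    have h1 : ∀ Z : C, ∃ D : Set Y, #D ≤ cof J ∧ ∀ x ∈ {x | x ∈ P ∧ φ x ⊆ Z.1}, ∃ y ∈ D, r x y :=
      fun Z => ih {x | x ∈ P ∧ φ x ⊆ Z.1} hJ (hZ Z.1 (hCJ Z.2))
    choose D hD1 hD2 using h1
    refine ⟨⋃ Z : C, D Z, ?_, fun x hx => ?_⟩
    · calc #(⋃ Z : C, D Z) ≤ Cardinal.sum fun Z : C => #(D Z) := Cardinal.mk_iUnion_le_sum_mk
        _ ≤ Cardinal.sum fun _ : C => cof J := Cardinal.sum_le_sum _ _ hD1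
        _ = #C * cof J := by rw [Cardinal.sum_const']
        _ = cof J * cof J := by rw [← hcard]
        _ = cof J := Cardinal.mul_eq_self hJ
    · obtain ⟨Z, hZC, hsub⟩ := hC (φ x) (hφ x hx)
      obtain ⟨y, hy, hr⟩ := hD2 ⟨Z, hZC⟩ x ⟨hx, hsub⟩
      exact ⟨y, Set.mem_iUnion.mpr ⟨⟨Z, hZC⟩, hy⟩, hr⟩

end H61.Y2
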